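import Pool.Agent.MP_ff3a4f_co.ln.Up

/-! Points on a line: four blocks attain the bound. -/

namespace Pool.Agent.MP_ff3a4f_co.Ln

open Finset Pool.Agent.MP_ff3a4f_co.Kirchberger
open scoped Classical

theorem gp (X : Finset P1) : GeneralPosition X := by
  intro S _ h
  rcases Nat.lt_or_ge #S 2 with k | k
  · have : Subsingleton S := ⟨fun a b => Subtype.ext (card_le_one.1 (by omega) _ a.2 _ b.2)⟩
    exact affineIndependent_of_subsingleton ℝ _
  · obtain ⟨a, b, n, rfl⟩ := card_eq_two.1 (le_antisymm h k)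
    refine (affineIndependent_of_ne ℝ n).range.mono fun p hp => ?_
    have : p = a ∨ p = b := by simpa using hp
    rcases this with rfl | rfl
    exacts [⟨0, rfl⟩, ⟨1, rfl⟩]

noncomputable def pt (i : ℕ) : P1 := WithLp.toLp 2 fun _ => (i : ℝ)

theorem pt_inj : Function.Injective pt := fun i j h => by
  have : (i : ℝ) = j := congrArg (fun p : P1 => p 0) h
  exact_mod_cast this

noncomputable def bl (a b : ℕ) : Finset P1 := (Ico a b).image pt

theorem card_bl (a b : ℕ) : #(bl a b) = b - a := by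
  rw [bl, card_image_of_injective _ pt_inj, Nat.card_Ico]

theorem bl_lt {a b c d : ℕ} (h : b ≤ c) {p q : P1} (hp : p ∈ bl a b) (hq : q ∈ bl c d) :
    p 0 < q 0 := by
  obtain ⟨i, hi, rfl⟩ := mem_image.1 hp
  obtain ⟨j, hj, rfl⟩ := mem_image.1 hq
  have : i < j := by rw [mem_Ico] at hi hj; omega
  exact (Nat.cast_lt.2 this : (i : ℝ) < j)

theorem bl_dis {a b c d : ℕ} (h : b ≤ c) : Disjoint (bl a b) (bl c d) :=
  disjoint_left.2 fun _ hp hq => lt_irrefl _ (bl_lt h hp hq)

theorem low {N K : ℕ} (h : 2 * K ≤ N) : ∃ A B : Finset P1, Disjoint A B ∧ #A = N ∧ #B = N ∧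
    (2 * N).choose 3 ≤ #(goodSets A B) + 2 * K * (K * (N - K)) ∧
    ∀ A' ⊆ A, ∀ B' ⊆ B, Separated A' B' → #A' + K ≤ N ∨ #B' + K ≤ N := by
  set A1 := bl 0 (N - K)
  set B1 := bl (N - K) N
  set A2 := bl N (N + K)
  set B2 := bl (N + K) (2 * N)
  have c1 : #A1 = N - K := card_bl _ _
  have c2 : #B1 = K := (card_bl _ _).trans (by omega)
  have c3 : #A2 = K := (card_bl _ _).trans (by omega)
  have c4 : #B2 = N - K := (card_bl _ _).trans (by omega)
  have dis : Disjoint (A1 ∪ A2) (B1 ∪ B2) := by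
    rw [disjoint_union_left, disjoint_union_right, disjoint_union_right]
    exact ⟨⟨bl_dis le_rfl, bl_dis (by omega)⟩, (bl_dis le_rfl).symm, bl_dis le_rfl⟩
  have hA : #(A1 ∪ A2) = N := by rw [card_union_of_disjoint (bl_dis (by omega)), c1, c3]; omega
  have hB : #(B1 ∪ B2) = N := by rw [card_union_of_disjoint (bl_dis (by omega)), c2, c4]; omega
  refine ⟨A1 ∪ A2, B1 ∪ B2, dis, hA, hB, ?_, fun A' a B' b s => ?_⟩
  · have e : (2 * N).choose 3 = #(powersetCard 3 ((A1 ∪ A2) ∪ (B1 ∪ B2))) := by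
      rw [card_powersetCard, card_union_of_disjoint dis, hA, hB, two_mul]
    have e2 : 2 * K * (K * (N - K)) = #((A1 ∪ B2) ×ˢ B1 ×ˢ A2) := by
      rw [card_product, card_product, card_union_of_disjoint (bl_dis (by omega)), c1, c2, c3, c4]
      ring
    rw [e, e2]
    refine (card_le_card (t := goodSets (A1 ∪ A2) (B1 ∪ B2) ∪ ((A1 ∪ B2) ×ˢ B1 ×ˢ A2).image
      fun z => {z.1, z.2.1, z.2.2}) fun S hS => ?_).trans
      ((card_union_le _ _).trans (add_le_add le_rfl card_image_le))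
    rw [mem_union, or_iff_not_imp_left]
    intro hn
    have hn' : ¬ Separated ((A1 ∪ A2) ∩ S) ((B1 ∪ B2) ∩ S) := fun k => hn (by
      unfold goodSets; exact mem_filter.2 ⟨hS, k⟩)
    obtain ⟨hS, h3⟩ := mem_powersetCard.1 hS
    obtain ⟨q, hq, hqS⟩ : ∃ q ∈ B1, q ∈ S := by
      by_contra k
      refine hn' (sep_symm (sep_of_lt fun p hp r hr => ?_))
      have hp' := (mem_union.1 (mem_inter.1 hp).1).resolve_left fun l => k ⟨p, l, (mem_inter.1 hp).2⟩
      exact (mem_union.1 (mem_inter.1 hr).1).elim (fun l => bl_lt (by omega) l hp')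
        fun l => bl_lt le_rfl l hp'
    obtain ⟨r, hr, hrS⟩ : ∃ r ∈ A2, r ∈ S := by
      by_contra k
      refine hn' (sep_symm (sep_of_lt fun p hp r hr => ?_))
      have hr' := (mem_union.1 (mem_inter.1 hr).1).resolve_right fun l => k ⟨r, l, (mem_inter.1 hr).2⟩
      exact (mem_union.1 (mem_inter.1 hp).1).elim (fun l => bl_lt le_rfl hr' l)
        fun l => bl_lt (by omega) hr' l
    obtain ⟨p, hp, hpS⟩ : ∃ p ∈ A1 ∪ B2, p ∈ S := by
      by_contra k
      refine hn' (sep_of_lt fun p hp r hr => ?_)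
      exact bl_lt le_rfl ((mem_union.1 (mem_inter.1 hr).1).resolve_right fun l =>
        k ⟨r, mem_union_right _ l, (mem_inter.1 hr).2⟩) ((mem_union.1 (mem_inter.1 hp).1).resolve_left
        fun l => k ⟨p, mem_union_left _ l, (mem_inter.1 hp).2⟩)
    have l1 : q 0 < r 0 := bl_lt le_rfl hq hr
    have l2 : p 0 < q 0 ∨ r 0 < p 0 :=
      (mem_union.1 hp).imp (fun l => bl_lt le_rfl l hq) fun l => bl_lt le_rfl hr l
    refine mem_image.2 ⟨(p, q, r), by simp only [mem_product]; exact ⟨hp, hq, hr⟩,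
      eq_of_subset_of_card_le (insert_subset hpS (insert_subset hqS (singleton_subset_iff.2 hrS)))
      (h3.trans (card_eq_three.2 ⟨p, q, r, ?_, ?_, ?_, rfl⟩).symm).le⟩ <;>
    · rintro rfl
      rcases l2 with l | l <;> linarith
  · by_contra k
    have pick : ∀ {C D E : Finset P1}, E ⊆ C ∪ D → #D < #E → ∃ x ∈ E, x ∈ C := fun {C D E} l m => by
      obtain ⟨x, hx, hx'⟩ := exists_mem_notMem_of_card_lt_card m
      exact ⟨x, hx, (mem_union.1 (l hx)).resolve_right hx'⟩
    obtain ⟨p, hp, hp'⟩ := pick a (by omega)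
    obtain ⟨r, hr, hr'⟩ := pick (union_comm A1 A2 ▸ a) (by omega)
    obtain ⟨q, hq, hq'⟩ := pick b (by omega)
    exact not_sep hp hq hr (bl_lt le_rfl hp' hq') (bl_lt le_rfl hq' hr') s

theorem choose3 (n : ℕ) : ((n.choose 3 : ℕ) : ℝ) = n * (n - 1) * (n - 2) / 6 := by
  induction n with
  | zero => simp
  | succ n ih =>
    rw [Nat.choose_succ_succ' n 2, Nat.cast_add, ih, Nat.cast_choose_two]
    push_cast
    ring

end Pool.Agent.MP_ff3a4f_co.Ln
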