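import Mathlib.Data.Finset.DenselyOrdered
import Pool.Agent.MP_ff3a4f_co.Kirchberger

/-! Points on a line: the least number of alternating triples for a given depth. -/

namespace Pool.Agent.MP_ff3a4f_co.Ln

open Finset Pool.Agent.MP_ff3a4f_co.Kirchberger
open scoped Classical

abbrev P1 : Type := EuclideanSpace ℝ (Fin 1)

theorem inner1 (w p : P1) : inner ℝ w p = w 0 * p 0 := by
  simp [PiLp.inner_apply, mul_comm]

theorem ext1 {p q : P1} (h : p 0 = q 0) : p = q := by
  ext i; rw [Subsingleton.elim i 0]; exact h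

theorem sep_symm {P Q : Finset P1} (h : Separated P Q) : Separated Q P := by
  obtain ⟨w, c, h0, h1, h2⟩ := h
  refine ⟨-w, -c, neg_ne_zero.2 h0, fun p hp => ?_, fun p hp => ?_⟩ <;> rw [inner_neg_left]
  · linarith [h2 p hp]
  · linarith [h1 p hp]

theorem sep_of_lt {P Q : Finset P1} (h : ∀ p ∈ P, ∀ q ∈ Q, q 0 < p 0) : Separated P Q := by
  obtain ⟨c, h1, h2⟩ := Set.Finite.exists_between' (s := (fun q : P1 => q 0) '' (Q : Set P1))
    (t := (fun q : P1 => q 0) '' (P : Set P1)) (Q.finite_toSet.image _) (P.finite_toSet.image _)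
    (by rintro _ ⟨q, hq, rfl⟩ _ ⟨p, hp, rfl⟩; exact h p hp q hq)
  refine separated_of_weak le_rfl _ _ (WithLp.toLp 2 fun _ => 1) c (fun p hp => ?_) fun p hp => ?_
  · rw [inner1]; simpa using h2 _ ⟨p, hp, rfl⟩
  · rw [inner1]; simpa using h1 _ ⟨p, hp, rfl⟩

theorem not_sep {P Q : Finset P1} {p q r : P1} (hp : p ∈ P) (hq : q ∈ Q) (hr : r ∈ P)
    (h1 : p 0 < q 0) (h2 : q 0 < r 0) : ¬ Separated P Q := by
  rintro ⟨w, c, -, a, b⟩
  have a1 := a p hp
  have a2 := a r hr
  have a3 := b q hq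
  rw [inner1] at a1 a2 a3
  rcases le_total 0 (w 0) with h | h <;> nlinarith

theorem sorted_inj {p q r p' q' r' : P1} (h1 : p 0 < q 0) (h2 : q 0 < r 0)
    (h1' : p' 0 < q' 0) (h2' : q' 0 < r' 0) (h : ({p, q, r} : Finset P1) = {p', q', r'}) :
    p = p' ∧ q = q' ∧ r = r' := by
  have m := fun z => Finset.ext_iff.1 h z
  simp only [mem_insert, mem_singleton] at m
  have a1 := (m p).1 (by tauto)
  have a2 := (m q).1 (by tauto)
  have a3 := (m r).1 (by tauto)
  rcases a1 with rfl | rfl | rfl <;> rcases a2 with rfl | rfl | rfl <;>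
    rcases a3 with rfl | rfl | rfl <;> first | exact ⟨rfl, rfl, rfl⟩ | (exfalso; linarith)

/-- The least cost of a path to `(a, b)`, for `b ≤ a`. -/
def U (N K a b : ℤ) : ℤ :=
  if a ≤ N - K then b * (a * (N - a)) else (a - N + 2 * K) * (K * (N - K)) + (b - K) * (a * (N - a))

def V (N K a b : ℤ) : ℤ := if b ≤ a then U N K a b else U N K b a

theorem V_comm (N K a b : ℤ) : V N K a b = V N K b a := by
  unfold V
  split_ifs with h h' h'
  · rw [le_antisymm h h']
  · rfl
  · rfl
  · omega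

theorem V_step {N K a b : ℤ} (hK : 2 * K ≤ N) (ha : 0 ≤ a) (hb : 0 ≤ b)
    (h1 : a + 1 ≤ N - K ∨ K ≤ b) (h2 : b ≤ N - K ∨ K ≤ a) :
    V N K (a + 1) b ≤ V N K a b + b * (N - b) := by
  unfold V U
  rcases le_or_gt b a with h | h
  · rw [if_pos h, if_pos (by omega : b ≤ a + 1)]
    rcases le_or_gt (a + 1) (N - K) with k | k
    · rw [if_pos k, if_pos (by omega : a ≤ N - K)]
      nlinarith [mul_nonneg hb (by omega : 0 ≤ 2 * a + 1 - b)]
    · have hb' : K ≤ b := by omega
      rw [if_neg (by omega)]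
      have key := mul_nonneg (sub_nonneg.2 hb') (by omega : 0 ≤ 2 * a + 1 - b - K)
      split_ifs with k'
      · obtain rfl : N = a + K := by omega
        nlinarith
      · nlinarith
  · have e : (if b ≤ a + 1 then U N K (a + 1) b else U N K b (a + 1)) = U N K b (a + 1) := by
      split_ifs with k
      · rw [show b = a + 1 by omega]
      · rfl
    unfold U at e
    rw [e, if_neg (not_le.2 h)]
    split_ifs <;> nlinarith

variable {A B : Finset P1}

/-- The points of `C` below and above `q`. -/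
noncomputable def lo (C : Finset P1) (q : P1) : Finset P1 := C.filter fun p => p 0 < q 0
noncomputable def hi (C : Finset P1) (q : P1) : Finset P1 := C.filter fun p => q 0 < p 0

/-- The colour class that does not contain `q`. -/
noncomputable def op (A B : Finset P1) (q : P1) : Finset P1 := if q ∈ A then B else A

theorem count (hAB : Disjoint A B) :
    #(goodSets A B) + ∑ q ∈ A ∪ B, #(lo (op A B q) q) * #(hi (op A B q) q) ≤
      (#(A ∪ B)).choose 3 := by
  have hop : ∀ q, op A B q ⊆ A ∪ B := fun q => by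
    unfold op; split_ifs; exacts [subset_union_right, subset_union_left]
  rw [← card_powersetCard, ← card_filter_add_card_filter_not (s := powersetCard 3 (A ∪ B))
    fun S => Separated (A ∩ S) (B ∩ S)]
  refine add_le_add (le_of_eq (by unfold goodSets; congr)) ?_
  simp only [← card_product]
  rw [← card_sigma]
  refine card_le_card_of_injOn (fun z => {z.2.1, z.1, z.2.2}) (fun z hz => ?_) fun z hz z' hz' e => ?_
  · obtain ⟨q, p, r⟩ := z
    simp only [coe_sigma, Set.mem_sigma_iff, mem_coe, mem_product, lo, hi, mem_filter] at hz ⊢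
    obtain ⟨hq, ⟨hp, h1⟩, hr, h2⟩ := hz
    have n1 : p ≠ q := fun e => by rw [e] at h1; exact lt_irrefl _ h1
    have n2 : q ≠ r := fun e => by rw [e] at h2; exact lt_irrefl _ h2
    have n3 : p ≠ r := fun e => by rw [e] at h1; linarith
    refine ⟨mem_powersetCard.2 ⟨insert_subset (hop q hp) (insert_subset hq
      (singleton_subset_iff.2 (hop q hr))), card_eq_three.2 ⟨p, q, r, n1, n3, n2, rfl⟩⟩, ?_⟩
    unfold op at hp hr
    by_cases k : q ∈ A
    · rw [if_pos k] at hp hr
      exact fun h => not_sep (p := p) (q := q) (r := r) (by simp [hp]) (by simp [k]) (by simp [hr])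
        h1 h2 (sep_symm h)
    · rw [if_neg k] at hp hr
      exact not_sep (p := p) (q := q) (r := r) (by simp [hp])
        (by simp [(mem_union.1 hq).resolve_left k]) (by simp [hr]) h1 h2
  · obtain ⟨q, p, r⟩ := z
    obtain ⟨q', p', r'⟩ := z'
    simp only [coe_sigma, Set.mem_sigma_iff, mem_coe, mem_product, lo, hi, mem_filter] at hz hz'
    obtain ⟨rfl, rfl, rfl⟩ := sorted_inj hz.2.1.2 hz.2.2.2 hz'.2.1.2 hz'.2.2.2 e
    rfl

def Low (X Y : Finset P1) : Prop := Y ⊆ X ∧ ∀ q ∈ Y, ∀ p ∈ X, p 0 < q 0 → p ∈ Y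

theorem ind {X : Finset P1} (P : Finset P1 → Prop) (h0 : P ∅)
    (hs : ∀ Y q, q ∉ Y → Low X Y → Low X (insert q Y) → (∀ p ∈ Y, p 0 < q 0) → P Y →
      P (insert q Y)) : P X := by
  have : ∀ Y, Low X Y → P Y := fun Y => by
    induction Y using induction_on_max_value fun p : P1 => p 0 with
    | empty => exact fun _ => h0
    | insert q Y hq hm ih =>
      intro h
      have l : Low X Y := ⟨(subset_insert _ _).trans h.1, fun a ha p hp k =>
        (mem_insert.1 (h.2 a (mem_insert_of_mem ha) p hp k)).resolve_left fun e =>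
          absurd (hm a ha) (not_le.2 (e ▸ k))⟩
      exact hs Y q hq l h (fun p hp => lt_of_le_of_ne (hm p hp) fun e => hq (ext1 e ▸ hp)) (ih l)
  exact this X ⟨Subset.rfl, fun _ _ p hp _ => hp⟩

theorem cut {C D Y : Finset P1} (h : Low (C ∪ D) Y) : Separated (C \ Y) (D ∩ Y) :=
  sep_of_lt fun p hp q hq => lt_of_le_of_ne (not_lt.1 fun k => (mem_sdiff.1 hp).2
    (h.2 q (mem_inter.1 hq).2 p (mem_union_left _ (mem_sdiff.1 hp).1) k))
    fun e => (mem_sdiff.1 hp).2 (ext1 e ▸ (mem_inter.1 hq).2)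

theorem split {C Y : Finset P1} {q : P1} {X : Finset P1} (hC : C ⊆ X) (hq : q ∉ C) (hY : q ∉ Y)
    (h : Low X (insert q Y)) (hm : ∀ p ∈ Y, p 0 < q 0) :
    (#(lo C q) * #(hi C q) : ℤ) = #(C ∩ Y) * (#C - #(C ∩ Y)) := by
  have e1 : lo C q = C ∩ Y := by
    ext p
    simp only [lo, mem_filter, mem_inter]
    exact and_congr_right fun hp => ⟨fun k => (mem_insert.1 (h.2 q (mem_insert_self _ _) p (hC hp)
      k)).resolve_left fun e => hq (e ▸ hp), hm p⟩
  have e2 : hi C q = C \ Y := by
    ext p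
    simp only [hi, mem_filter, mem_sdiff]
    refine and_congr_right fun hp => ⟨fun k l => lt_asymm k (hm p l), fun k => ?_⟩
    refine lt_of_le_of_ne (not_lt.1 fun l => k ?_) fun e => hq (ext1 e ▸ hp)
    exact (mem_inter.1 (e1 ▸ mem_filter.2 ⟨hp, l⟩ : p ∈ C ∩ Y)).2
  have := card_sdiff_add_card_inter C Y
  rw [e1, e2]
  congr 1
  omega

/-- The exact lower bound for the number of inseparable triples. -/
theorem up {N K : ℕ} (hK : 0 < K) (hN : 0 < N) (hAB : Disjoint A B) (hA : #A = N) (hB : #B = N)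
    (dep : ∀ A' ⊆ A, ∀ B' ⊆ B, Separated A' B' → #A' + K ≤ N ∨ #B' + K ≤ N) :
    2 * K ≤ N ∧ (#(goodSets A B) : ℤ) + 2 * K * (K * (N - K)) ≤ (2 * N).choose 3 := by
  have al : ∀ Y, Low (A ∪ B) Y → (K ≤ #(A ∩ Y) ∨ #(B ∩ Y) + K ≤ N) ∧
      (#(A ∩ Y) + K ≤ N ∨ K ≤ #(B ∩ Y)) := fun Y h => by
    have a := dep _ sdiff_subset _ inter_subset_left (cut h)
    have b := dep _ inter_subset_left _ sdiff_subset (sep_symm (cut (union_comm A B ▸ h)))
    have c := card_sdiff_add_card_inter A Y
    have d := card_sdiff_add_card_inter B Y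
    omega
  have st : ∀ Y q, q ∉ Y → Low (A ∪ B) (insert q Y) →
      (q ∈ A ∧ q ∉ B ∧ #(A ∩ insert q Y) = #(A ∩ Y) + 1 ∧ B ∩ insert q Y = B ∩ Y) ∨
      (q ∉ A ∧ #(B ∩ insert q Y) = #(B ∩ Y) + 1 ∧ A ∩ insert q Y = A ∩ Y) := fun Y q hq h => by
    by_cases k : q ∈ A
    · have k' := disjoint_left.1 hAB k
      exact .inl ⟨k, k', by rw [inter_insert_of_mem k, card_insert_of_notMem (by simp [hq])],
        inter_insert_of_notMem k'⟩
    · have k' := (mem_union.1 (h.1 (mem_insert_self _ _))).resolve_left k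
      exact .inr ⟨k, by rw [inter_insert_of_mem k', card_insert_of_notMem (by simp [hq])],
        inter_insert_of_notMem k⟩
  have eA : A ∩ (A ∪ B) = A := inter_eq_left.2 subset_union_left
  have eB : B ∩ (A ∪ B) = B := inter_eq_left.2 subset_union_right
  have h2 : 2 * K ≤ N := by
    by_contra hc
    have := ind (X := A ∪ B) (fun Y => #(A ∩ Y) + #(B ∩ Y) < N) (by simpa) fun Y q hq _ l _ ih => by
      have a := al _ l
      rcases st Y q hq l with ⟨-, -, e, e'⟩ | ⟨-, e, e'⟩ <;> rw [e'] at a ⊢ <;> omega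
    rw [eA, eB] at this
    omega
  have main := ind (X := A ∪ B) (fun Y => V N K #(A ∩ Y) #(B ∩ Y) ≤
      ∑ q ∈ Y, (#(lo (op A B q) q) * #(hi (op A B q) q) : ℤ))
    (by simp [V, U]; omega) fun Y q hq l l' hm ih => by
      have a := al _ l
      have a' := al _ l'
      rw [sum_insert hq]
      rcases st Y q hq l' with ⟨k, k', e, e'⟩ | ⟨k, e, e'⟩
      · rw [e'] at a'
        rw [e, e', op, if_pos k, split subset_union_right k' hq l' hm, hB]
        have := V_step (N := N) (K := K) (a := #(A ∩ Y)) (b := #(B ∩ Y)) (by omega) (by omega)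
          (by omega) (by omega) (by omega)
        push_cast
        linarith
      · rw [e'] at a'
        rw [e, e', op, if_neg k, split subset_union_left k hq l' hm, hA, V_comm]
        have := V_step (N := N) (K := K) (a := #(B ∩ Y)) (b := #(A ∩ Y)) (by omega) (by omega)
          (by omega) (by omega) (by omega)
        rw [V_comm] at ih
        push_cast
        linarith
  refine ⟨h2, ?_⟩
  have c := count hAB
  rw [card_union_of_disjoint hAB, hA, hB, ← two_mul] at c
  rw [eA, eB, hA, hB, V, if_pos le_rfl, U, if_neg (by omega)] at main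
  have c' : (#(goodSets A B) : ℤ) + ∑ q ∈ A ∪ B, (#(lo (op A B q) q) * #(hi (op A B q) q) : ℤ) ≤
      (2 * N).choose 3 := by exact_mod_cast c
  linarith

end Pool.Agent.MP_ff3a4f_co.Ln
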